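import Pool.Agent.MP_4f1eb4_an.Final

open NormedSpace Filter Topology Set TopologicalSpace

namespace Pool.Agent.MP_4f1eb4_an

variable {𝕜 X : Type*} [RCLike 𝕜] [NormedAddCommGroup X] [NormedSpace 𝕜 X]

/-- ultrafilter limits of families in the dual ball, taken in the third dual -/
lemma exists_limit {ι : Type*} (U : Ultrafilter ι) (d : ι → StrongDual 𝕜 X)
    (hd : ∀ i, ‖d i‖ ≤ 1) :
    ∃ H : StrongDual 𝕜 (Bid 𝕜 X), ‖H‖ ≤ 1 ∧
      ∀ Y : Bid 𝕜 X, Tendsto (fun i => Y.ev (d i)) (U : Filter ι) (𝓝 (H Y)) := by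
  have h1 : ∀ Y : Bid 𝕜 X, ∃ c : 𝕜, ‖c‖ ≤ ‖Y‖ ∧
      Tendsto (fun i => Y.ev (d i)) (U : Filter ι) (𝓝 c) := by
    intro Y
    have hb : ∀ i, Y.ev (d i) ∈ Metric.closedBall (0 : 𝕜) ‖Y‖ := by
      intro i
      rw [mem_closedBall_zero_iff]
      refine (Y.ev_le (d i)).trans ?_
      have := mul_le_mul_of_nonneg_left (hd i) (norm_nonneg Y)
      linarith
    obtain ⟨c, hc, hc2⟩ := (isCompact_closedBall (0 : 𝕜) ‖Y‖).ultrafilter_le_nhds
      (U.map fun i => Y.ev (d i)) (by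
        rw [Filter.le_principal_iff]
        change {i | Y.ev (d i) ∈ Metric.closedBall (0 : 𝕜) ‖Y‖} ∈ (U : Filter ι)
        exact Filter.mem_of_superset Filter.univ_mem (fun i _ => hb i))
    exact ⟨c, by simpa using hc, hc2⟩
  choose H0 hH0 hH using h1
  let H1 : Bid 𝕜 X →ₗ[𝕜] 𝕜 :=
    { toFun := H0
      map_add' := fun Y Z => by
        refine tendsto_nhds_unique (hH (Y + Z)) ?_
        exact (hH Y).add (hH Z)
      map_smul' := fun c Y => by
        refine tendsto_nhds_unique (hH (c • Y)) ?_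
        exact (hH Y).const_mul c }
  have hH1 : ∀ Y, ‖H1 Y‖ ≤ 1 * ‖Y‖ := fun Y => by rw [one_mul]; exact hH0 Y
  refine ⟨LinearMap.mkContinuous H1 1 hH1, ?_, ?_⟩
  · exact LinearMap.mkContinuous_norm_le H1 zero_le_one hH1
  · intro Y
    exact hH Y

/-- a countable set of functionals which is dense in the ball for evaluation at a sequence -/
lemma exists_countable {E : Type*} [NormedAddCommGroup E] [NormedSpace 𝕜 E] [SeparableSpace E] :
    ∃ D : Set (StrongDual 𝕜 E), D.Countable ∧ (∀ d ∈ D, ‖d‖ ≤ 1) ∧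
      ∀ f : StrongDual 𝕜 E, ‖f‖ ≤ 1 → ∃ d : ℕ → StrongDual 𝕜 E, (∀ n, d n ∈ D) ∧
        ∀ z : E, Tendsto (fun n => d n z) atTop (𝓝 (f z)) := by
  classical
  let e : StrongDual 𝕜 E → ℕ → 𝕜 := fun f n => f (denseSeq E n)
  have hsep : IsSeparable (e '' Metric.closedBall 0 1) := by
    haveI : SecondCountableTopology (ℕ → 𝕜) := inferInstance
    exact IsSeparable.of_separableSpace _
  obtain ⟨c, hcs, hcc, hcd⟩ := hsep.exists_countable_dense_subset
  have hch : ∀ p : c, ∃ f : StrongDual 𝕜 E, ‖f‖ ≤ 1 ∧ e f = p := by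
    intro p
    obtain ⟨f, hf, hfp⟩ := hcs p.2
    exact ⟨f, by simpa using hf, hfp⟩
  choose g hg1 hg2 using hch
  haveI : Countable c := hcc.to_subtype
  refine ⟨Set.range g, Set.countable_range g, ?_, ?_⟩
  · rintro _ ⟨p, rfl⟩
    exact hg1 p
  · intro f hf
    have h1 : e f ∈ closure c := hcd ⟨f, by simpa using hf, rfl⟩
    rw [mem_closure_iff_seq_limit] at h1
    obtain ⟨q, hq, hqt⟩ := h1
    refine ⟨fun n => g ⟨q n, hq n⟩, fun n => ⟨_, rfl⟩, ?_⟩
    have h2 : ∀ m, Tendsto (fun n => g ⟨q n, hq n⟩ (denseSeq E m)) atTop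
        (𝓝 (f (denseSeq E m))) := by
      intro m
      have h3 := (tendsto_pi_nhds.1 hqt) m
      refine h3.congr (fun n => ?_)
      have := congrFun (hg2 ⟨q n, hq n⟩) m
      exact this.symm
    intro z
    rw [Metric.tendsto_atTop]
    intro ε hε
    obtain ⟨m, hm⟩ := (denseRange_denseSeq E).exists_dist_lt z (ε := ε/4) (by positivity)
    obtain ⟨N, hN⟩ := (Metric.tendsto_atTop.1 (h2 m)) (ε/4) (by positivity)
    refine ⟨N, fun n hn => ?_⟩
    have h4 := hN n hn
    set w := denseSeq E m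
    have h5 : ‖g ⟨q n, hq n⟩ (z - w)‖ ≤ ‖z - w‖ := by
      have := (g ⟨q n, hq n⟩).le_of_opNorm_le (hg1 _) (z - w)
      rwa [one_mul] at this
    have h6 : ‖f (z - w)‖ ≤ ‖z - w‖ := by
      have := f.le_of_opNorm_le hf (z - w)
      rwa [one_mul] at this
    rw [dist_eq_norm] at hm h4 ⊢
    have e1 : g ⟨q n, hq n⟩ z - f z =
        g ⟨q n, hq n⟩ (z - w) + (g ⟨q n, hq n⟩ w - f w) - f (z - w) := by
      rw [map_sub, map_sub]; ring
    rw [e1]
    have h7 := norm_sub_le (g ⟨q n, hq n⟩ (z - w) + (g ⟨q n, hq n⟩ w - f w)) (f (z - w))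
    have h8 := norm_add_le (g ⟨q n, hq n⟩ (z - w)) (g ⟨q n, hq n⟩ w - f w)
    linarith

variable [hfact : Fact (0 < numIndex 𝕜 X)]
variable {P : StrongDual 𝕜 (Lv 𝕜 X) →ₗ[𝕜] StrongDual 𝕜 (Lv 𝕜 X)}

/-- restriction of functionals to a subspace -/
noncomputable def rst (Z : Submodule 𝕜 X) : StrongDual 𝕜 X →L[𝕜] StrongDual 𝕜 Z :=
  adj Z.subtypeL

@[simp] lemma rst_apply (Z : Submodule 𝕜 X) (f : StrongDual 𝕜 X) (z : Z) : rst Z f z = f z := rfl

/-- `X` is Asplund -/
theorem Proj.asplund (h : Proj P) : IsAsplund 𝕜 X := by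
  intro Z _ hsep
  obtain ⟨D, hDc, hD1, hD⟩ := exists_countable (𝕜 := 𝕜) (E := Z)
  have key : ∀ f : StrongDual 𝕜 Z, ‖f‖ = 1 →
      f ∈ closure ((Submodule.span 𝕜 D : Submodule 𝕜 (StrongDual 𝕜 Z)) :
        Set (StrongDual 𝕜 Z)) := by
    intro f hf
    by_contra hcon
    obtain ⟨F, hF, hFf⟩ := ext_annih _ hcon
    obtain ⟨d, hdD, hd⟩ := hD f hf.le
    have hext : ∀ n, ∃ g : StrongDual 𝕜 X, (∀ z : Z, g z = d n z) ∧ ‖g‖ = ‖d n‖ :=
      fun n => exists_extension_norm_eq Z (d n)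
    choose g hg1 hg2 using hext
    let U : Ultrafilter ℕ := Ultrafilter.of atTop
    have hU : (U : Filter ℕ) ≤ atTop := Ultrafilter.of_le atTop
    obtain ⟨H, hH1, hH⟩ := exists_limit U g (fun n => by rw [hg2]; exact hD1 _ (hdD n))
    have hres : ∀ z : Z, res H z = f z := by
      intro z
      rw [res_apply]
      have h1 := hH (j1 (z : X))
      have h2 : Tendsto (fun n => (j1 (z : X) : Bid 𝕜 X).ev (g n)) (U : Filter ℕ) (𝓝 (f z)) := by
        refine ((hd z).mono_left hU).congr (fun n => ?_)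
        rw [j1_ev, hg1]
      exact tendsto_nhds_unique h1 h2
    have hn : 1 ≤ ‖res H‖ := by
      rw [← hf]
      apply ContinuousLinearMap.opNorm_le_bound _ (norm_nonneg _)
      intro z
      rw [← hres]
      exact (res H).le_opNorm _
    have hζ : res (H - j2 (res H)) = 0 := by rw [map_sub, res_j2, sub_self]
    have h1 := h.embedded (res H) (H - j2 (res H)) hζ
    rw [add_sub_cancel] at h1
    have h2 : H - j2 (res H) = 0 := by
      apply norm_le_zero_iff.1
      linarith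
    rw [sub_eq_zero] at h2
    set Y : Bid 𝕜 X := Bid.mk (F.comp (rst Z)) with hY
    have hYev : ∀ u, Y.ev u = F (rst Z u) := fun u => rfl
    have h3 : H Y = F f := by
      rw [h2, j2_apply, hYev]
      congr 1
      ext z
      exact hres z
    have h4 : H Y = 0 := by
      refine tendsto_nhds_unique (hH Y) ?_
      have h5 : ∀ n, Y.ev (g n) = 0 := by
        intro n
        rw [hYev]
        have h6 : rst Z (g n) = d n := by
          ext z; exact hg1 n z
        rw [h6]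
        exact hF _ (Submodule.subset_span (hdD n))
      simp only [h5]
      exact tendsto_const_nhds
    exact hFf (h3.symm.trans h4)
  have hall : ∀ f : StrongDual 𝕜 Z, f ∈ closure ((Submodule.span 𝕜 D :
      Submodule 𝕜 (StrongDual 𝕜 Z)) : Set (StrongDual 𝕜 Z)) := by
    intro f
    rw [← Submodule.topologicalClosure_coe]
    by_cases hf : ‖f‖ = 0
    · rw [norm_eq_zero.1 hf]
      exact Submodule.zero_mem _
    · have hf0 : 0 < ‖f‖ := lt_of_le_of_ne (norm_nonneg _) (Ne.symm hf)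
      have h1 := key (((‖f‖⁻¹ : ℝ) : 𝕜) • f) (by
        rw [norm_smul, RCLike.norm_ofReal, abs_of_pos (inv_pos.2 hf0), inv_mul_cancel₀ hf])
      rw [← Submodule.topologicalClosure_coe] at h1
      have h2 := Submodule.smul_mem _ (‖f‖ : 𝕜) h1
      rwa [smul_smul, ← RCLike.ofReal_mul, mul_inv_cancel₀ hf, RCLike.ofReal_one, one_smul] at h2
  have hs : IsSeparable (Set.univ : Set (StrongDual 𝕜 Z)) := by
    have h1 : IsSeparable ((Submodule.span 𝕜 D : Submodule 𝕜 (StrongDual 𝕜 Z)) :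
        Set (StrongDual 𝕜 Z)) := hDc.isSeparable.span
    refine h1.closure.mono (fun f _ => hall f)
  exact isSeparable_univ_iff.1 hs

/-- `X` is an M-ideal in its bidual -/
theorem Proj.mEmbedded [CompleteSpace X] (h : Proj P) :
    IsMIdeal 𝕜 (LinearMap.range ((j1 : X →L[𝕜] Bid 𝕜 X) : X →ₗ[𝕜] Bid 𝕜 X)) := by
  refine ⟨?_, ((j2 : StrongDual 𝕜 X →L[𝕜] StrongDual 𝕜 (Bid 𝕜 X)).comp res : _ →ₗ[𝕜] _),
    ?_, ?_, ?_⟩
  · have hiso : Isometry (j1 : X →L[𝕜] Bid 𝕜 X) := by
      apply AddMonoidHomClass.isometry_of_norm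
      exact j1_norm
    exact hiso.isClosedEmbedding.isClosed_range
  · intro w
    show j2 (res (j2 (res w))) = j2 (res w)
    rw [res_j2]
  · intro w
    show j2 (res w) = 0 ↔ _
    constructor
    · intro hw y hy
      obtain ⟨x, rfl⟩ := hy
      have h1 : ‖res w‖ = 0 := by rw [← j2_norm, hw, norm_zero]
      have h2 := norm_eq_zero.1 h1
      have h3 : res w x = 0 := by rw [h2]; rfl
      exact h3
    · intro hw
      have h1 : res w = 0 := by
        ext x
        exact hw _ ⟨x, rfl⟩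
      rw [h1, map_zero]
  · intro w
    show ‖w‖ = ‖j2 (res w)‖ + ‖w - j2 (res w)‖
    apply le_antisymm
    · calc ‖w‖ = ‖j2 (res w) + (w - j2 (res w))‖ := by rw [add_sub_cancel]
        _ ≤ _ := norm_add_le _ _
    · have h1 := h.embedded (res w) (w - j2 (res w)) (by rw [map_sub, res_j2, sub_self])
      rw [add_sub_cancel] at h1
      rw [j2_norm]
      exact h1

end Pool.Agent.MP_4f1eb4_an
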