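import Pool.Agent.MP_4f1eb4_an.Defs

open NormedSpace Filter Topology Set

namespace Pool.Agent.MP_4f1eb4_an

variable {𝕜 X : Type*} [RCLike 𝕜] [NormedAddCommGroup X] [NormedSpace 𝕜 X]

/-- The adjoint operator between dual spaces. -/
noncomputable def adj {E F : Type*} [NormedAddCommGroup E] [NormedSpace 𝕜 E]
    [NormedAddCommGroup F] [NormedSpace 𝕜 F] (T : E →L[𝕜] F) :
    StrongDual 𝕜 F →L[𝕜] StrongDual 𝕜 E :=
  (ContinuousLinearMap.compL 𝕜 E F 𝕜).flip T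

@[simp] lemma adj_apply {E F : Type*} [NormedAddCommGroup E] [NormedSpace 𝕜 E]
    [NormedAddCommGroup F] [NormedSpace 𝕜 F] (T : E →L[𝕜] F) (u : StrongDual 𝕜 F) (x : E) :
    adj T u x = u (T x) := rfl

lemma adj_norm_le {E F : Type*} [NormedAddCommGroup E] [NormedSpace 𝕜 E]
    [NormedAddCommGroup F] [NormedSpace 𝕜 F] (T : E →L[𝕜] F) : ‖adj T‖ ≤ ‖T‖ := by
  apply ContinuousLinearMap.opNorm_le_bound _ (norm_nonneg _)
  intro u
  apply ContinuousLinearMap.opNorm_le_bound _ (by positivity)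
  intro x
  rw [adj_apply]
  calc ‖u (T x)‖ ≤ ‖u‖ * (‖T‖ * ‖x‖) := (u.le_opNorm _).trans (by gcongr; exact T.le_opNorm _)
    _ = ‖T‖ * ‖u‖ * ‖x‖ := by ring

lemma adj_add {E F : Type*} [NormedAddCommGroup E] [NormedSpace 𝕜 E]
    [NormedAddCommGroup F] [NormedSpace 𝕜 F] (S T : E →L[𝕜] F) : adj (S + T) = adj S + adj T := by
  ext u x; simp

lemma adj_smul {E F : Type*} [NormedAddCommGroup E] [NormedSpace 𝕜 E]
    [NormedAddCommGroup F] [NormedSpace 𝕜 F] (c : 𝕜) (T : E →L[𝕜] F) :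
    adj (c • T) = c • adj T := by
  ext u x; simp

lemma adj_id {E : Type*} [NormedAddCommGroup E] [NormedSpace 𝕜 E] :
    adj (ContinuousLinearMap.id 𝕜 E) = ContinuousLinearMap.id 𝕜 _ := by
  ext u x; simp

/-- `‖x - tTx‖ ≥ (1 - t v(T)) ‖x‖` -/
lemma lower (T : X →L[𝕜] X) {t : ℝ} (ht : 0 ≤ t) (x : X) :
    (1 - t * numRadius T) * ‖x‖ ≤ ‖x - (t : 𝕜) • T x‖ := by
  by_cases hx : ‖x‖ = 0
  · rw [hx]; simp
  · obtain ⟨f, hf, hfx⟩ := exists_dual_vector 𝕜 x hx
    have hx0 : 0 < ‖x‖ := lt_of_le_of_ne (norm_nonneg _) (Ne.symm hx)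
    have h1 : ‖f (T (((‖x‖⁻¹ : ℝ) : 𝕜) • x))‖ ≤ numRadius T := by
      apply le_numRadius T hf
      · rw [norm_smul, RCLike.norm_ofReal, abs_of_pos (inv_pos.2 hx0)]
        exact inv_mul_cancel₀ hx
      · rw [map_smul, hfx, smul_eq_mul, ← RCLike.ofReal_mul, inv_mul_cancel₀ hx, RCLike.ofReal_one]
    rw [map_smul, map_smul, norm_smul, RCLike.norm_ofReal, abs_of_pos (inv_pos.2 hx0)] at h1
    have h2 : ‖f (T x)‖ ≤ numRadius T * ‖x‖ := by
      have := mul_le_mul_of_nonneg_right h1 hx0.le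
      rwa [mul_comm, ← mul_assoc, mul_inv_cancel₀ hx, one_mul] at this
    have h3 : ‖f (x - (t : 𝕜) • T x)‖ ≤ ‖x - (t : 𝕜) • T x‖ := by
      have := f.le_opNorm (x - (t : 𝕜) • T x)
      rwa [hf, one_mul] at this
    have h4 : f (x - (t : 𝕜) • T x) = (‖x‖ : 𝕜) - (t : 𝕜) * f (T x) := by
      rw [map_sub, map_smul, hfx, smul_eq_mul]
    have h5 : ‖x‖ - t * ‖f (T x)‖ ≤ ‖f (x - (t : 𝕜) • T x)‖ := by
      rw [h4]
      have := norm_sub_norm_le (‖x‖ : 𝕜) ((t : 𝕜) * f (T x))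
      rw [norm_mul, RCLike.norm_ofReal, RCLike.norm_ofReal, abs_of_pos hx0, abs_of_nonneg ht] at this
      exact this
    have h6 : t * ‖f (T x)‖ ≤ t * (numRadius T * ‖x‖) := mul_le_mul_of_nonneg_left h2 ht
    linarith

/-- Lumer type estimate. -/
lemma lumer {T : X →L[𝕜] X} {c t : ℝ} (hv : numRadius T ≤ 1) (hc : ‖T‖ ≤ c) (ht : 0 < t)
    (ht2 : t ≤ 1/2) :
    ‖ContinuousLinearMap.id 𝕜 X + (t : 𝕜) • T‖ ≤ 1 + t + (2 + 2 * c^2) * t^2 := by
  have hc0 : 0 ≤ c := (norm_nonneg _).trans hc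
  apply ContinuousLinearMap.opNorm_le_bound _ (by positivity)
  intro x
  have h1 := lower T ht.le (x + (t : 𝕜) • T x)
  have h2 : x + (t : 𝕜) • T x - (t : 𝕜) • T (x + (t : 𝕜) • T x) = x - ((t : 𝕜) * (t : 𝕜)) • T (T x) := by
    rw [map_add, map_smul, smul_add, smul_smul]
    abel
  rw [h2] at h1
  have h3 : ‖x - ((t : 𝕜) * (t : 𝕜)) • T (T x)‖ ≤ ‖x‖ + t^2 * (c^2 * ‖x‖) := by
    refine (norm_sub_le _ _).trans ?_
    rw [norm_smul, norm_mul, RCLike.norm_ofReal, abs_of_pos ht]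
    have h4 : ‖T (T x)‖ ≤ c * (c * ‖x‖) := by
      refine (T.le_opNorm _).trans ?_
      refine mul_le_mul hc ?_ (norm_nonneg _) hc0
      refine (T.le_opNorm _).trans ?_
      exact mul_le_mul_of_nonneg_right hc (norm_nonneg _)
    have h5 : t * t * ‖T (T x)‖ ≤ t * t * (c * (c * ‖x‖)) :=
      mul_le_mul_of_nonneg_left h4 (by positivity)
    nlinarith
  have h6 : (1 - t) * ‖x + (t : 𝕜) • T x‖ ≤ (1 + t^2 * c^2) * ‖x‖ := by
    have h7 : (1 - t) * ‖x + (t : 𝕜) • T x‖ ≤ (1 - t * numRadius T) * ‖x + (t : 𝕜) • T x‖ := by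
      apply mul_le_mul_of_nonneg_right _ (norm_nonneg _)
      nlinarith
    linarith
  have e : (ContinuousLinearMap.id 𝕜 X + (t : 𝕜) • T) x = x + (t : 𝕜) • T x := by
    simp
  rw [e]
  have h8 : (1 + t^2 * c^2) ≤ (1 - t) * (1 + t + (2 + 2 * c^2) * t^2) := by
    have h9 : 0 ≤ t^2 := by positivity
    have h10 : 0 ≤ t^2 * c^2 := by positivity
    have h11 : 0 ≤ t^2 * (1 - 2 * t) := mul_nonneg h9 (by linarith)
    have h12 : 0 ≤ t^2 * c^2 * (1 - 2 * t) := mul_nonneg h10 (by linarith)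
    nlinarith
  have h13 : (1 - t) * ‖x + (t : 𝕜) • T x‖ ≤ (1 - t) * ((1 + t + (2 + 2 * c^2) * t^2) * ‖x‖) := by
    have := mul_le_mul_of_nonneg_right h8 (norm_nonneg x)
    linarith
  exact le_of_mul_le_mul_left h13 (by linarith)

/-- Finite version of Goldstine's theorem. -/
lemma goldstine (y : StrongDual 𝕜 (StrongDual 𝕜 X)) (hy : ‖y‖ ≤ 1) (F : Finset (StrongDual 𝕜 X))
    {η : ℝ} (hη : 0 < η) : ∃ x : X, ‖x‖ ≤ 1 ∧ ∀ u ∈ F, ‖u x - y u‖ < η := by
  classical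
  let L : X →L[𝕜] (F → 𝕜) := ContinuousLinearMap.pi (fun u => (u : StrongDual 𝕜 X))
  set a : F → 𝕜 := fun u => y u with ha
  set S : Set (F → 𝕜) := closure (L '' Metric.closedBall 0 1) with hS
  have hconv : Convex ℝ S := by
    apply Convex.closure
    intro p hp q hq s t hs ht hst
    obtain ⟨x, hx, rfl⟩ := hp
    obtain ⟨z, hz, rfl⟩ := hq
    refine ⟨(s : 𝕜) • x + (t : 𝕜) • z, ?_, ?_⟩
    · rw [mem_closedBall_zero_iff] at hx hz ⊢
      refine (norm_add_le _ _).trans ?_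
      rw [norm_smul, norm_smul, RCLike.norm_ofReal, RCLike.norm_ofReal, abs_of_nonneg hs,
        abs_of_nonneg ht]
      nlinarith
    · rw [map_add, map_smul, map_smul]
      ext u
      simp [RCLike.real_smul_eq_coe_mul]
  have hmem : a ∈ S := by
    by_contra hcon
    obtain ⟨f, r, hf1, hf2⟩ := RCLike.geometric_hahn_banach_closed_point (𝕜 := 𝕜) hconv
      isClosed_closure hcon
    set g : StrongDual 𝕜 X := f.comp L with hg
    have hgn : ‖g‖ ≤ r := by
      have hr : 0 ≤ r := by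
        have := hf1 (L 0) (subset_closure ⟨0, by simp, rfl⟩)
        simp at this
        exact this.le
      apply ContinuousLinearMap.opNorm_le_of_unit_norm hr
      intro x hx
      obtain ⟨c, hc, hcx⟩ := RCLike.exists_norm_eq_mul_self (g x)
      have h1 := hf1 (L (c • x)) (subset_closure ⟨c • x, by
        rw [mem_closedBall_zero_iff, norm_smul, hc, hx, mul_one], rfl⟩)
      have h2 : f (L (c • x)) = (‖g x‖ : 𝕜) := by
        rw [hcx, map_smul, map_smul, smul_eq_mul]; rfl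
      rw [h2, RCLike.ofReal_re] at h1
      exact h1.le
    have hyg : y g = f a := by
      have h1 : g = ∑ u : F, (f (Pi.single u 1)) • (u : StrongDual 𝕜 X) := by
        ext x
        have h2 : L x = ∑ u : F, (u : StrongDual 𝕜 X) x • (Pi.single u 1 : F → 𝕜) := by
          ext v
          simp [L, Finset.sum_apply, Pi.single_apply]
        rw [hg, ContinuousLinearMap.comp_apply, h2, map_sum, _root_.sum_apply]
        apply Finset.sum_congr rfl
        intro u _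
        rw [map_smul, _root_.smul_apply, smul_eq_mul, smul_eq_mul, mul_comm]
      have h3 : a = ∑ u : F, y u • (Pi.single u 1 : F → 𝕜) := by
        ext v
        simp [ha, Finset.sum_apply, Pi.single_apply]
      rw [h1, h3, map_sum, map_sum]
      apply Finset.sum_congr rfl
      intro u _
      rw [map_smul, map_smul, smul_eq_mul, smul_eq_mul, mul_comm]
    have h4 : RCLike.re (f a) ≤ ‖f a‖ := RCLike.re_le_norm _
    have h5 : ‖y g‖ ≤ 1 * r := (y.le_opNorm g).trans (mul_le_mul hy hgn (norm_nonneg _) zero_le_one)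
    rw [hyg] at h5
    linarith
  rw [hS, Metric.mem_closure_iff] at hmem
  obtain ⟨b, ⟨x, hx, rfl⟩, hb⟩ := hmem η hη
  refine ⟨x, by simpa using hx, fun u hu => ?_⟩
  have h1 := (dist_pi_lt_iff hη).1 hb ⟨u, hu⟩
  rw [dist_comm, dist_eq_norm] at h1
  exact h1

variable (𝕜 X) in
/-- The bidual `X^{**}` of `X`. -/
def Bid : Type _ := StrongDual 𝕜 (StrongDual 𝕜 X)

noncomputable instance : NormedAddCommGroup (Bid 𝕜 X) :=
  inferInstanceAs (NormedAddCommGroup (StrongDual 𝕜 (StrongDual 𝕜 X)))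

noncomputable instance : NormedSpace 𝕜 (Bid 𝕜 X) :=
  inferInstanceAs (NormedSpace 𝕜 (StrongDual 𝕜 (StrongDual 𝕜 X)))

/-- evaluation of an element of the bidual -/
noncomputable def Bid.ev (y : Bid 𝕜 X) : StrongDual 𝕜 X →L[𝕜] 𝕜 := y

/-- a functional on the dual as an element of the bidual -/
noncomputable def Bid.mk (y : StrongDual 𝕜 X →L[𝕜] 𝕜) : Bid 𝕜 X := y

@[simp] lemma Bid.ev_mk (y : StrongDual 𝕜 X →L[𝕜] 𝕜) : (Bid.mk y).ev = y := rfl

lemma Bid.ext {y z : Bid 𝕜 X} (h : ∀ u, y.ev u = z.ev u) : y = z := by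
  have : y.ev = z.ev := ContinuousLinearMap.ext h
  exact this

lemma Bid.ev_add (y z : Bid 𝕜 X) (u : StrongDual 𝕜 X) : (y + z).ev u = y.ev u + z.ev u := rfl

lemma Bid.ev_smul (c : 𝕜) (y : Bid 𝕜 X) (u : StrongDual 𝕜 X) : (c • y).ev u = c * y.ev u := rfl

lemma Bid.norm_ev (y : Bid 𝕜 X) : ‖y.ev‖ = ‖y‖ := rfl

lemma Bid.ev_le (y : Bid 𝕜 X) (u : StrongDual 𝕜 X) : ‖y.ev u‖ ≤ ‖y‖ * ‖u‖ :=
  y.ev.le_opNorm u

lemma Bid.norm_le {y : Bid 𝕜 X} {C : ℝ} (hC : 0 ≤ C) (h : ∀ u, ‖y.ev u‖ ≤ C * ‖u‖) : ‖y‖ ≤ C :=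
  y.ev.opNorm_le_bound hC h

/-- The second adjoint of a compact operator maps into the space itself. -/
lemma compact_bidual {K : X →L[𝕜] X} (hK : IsCompactOperator K)
    (y : Bid 𝕜 X) :
    ∃ c : X, ∀ u : StrongDual 𝕜 X, y.ev (adj K u) = u c := by
  classical
  have main : ∀ y : Bid 𝕜 X, ‖y‖ ≤ 1 →
      ∃ c : X, ∀ u : StrongDual 𝕜 X, y.ev (adj K u) = u c := by
    intro y hy
    obtain ⟨C, hC, hKC⟩ := hK.image_closedBall_subset_compact (f := (K : X →ₗ[𝕜] X)) 1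
    have hch : ∀ p : Finset (StrongDual 𝕜 X) × ℕ, ∃ x : X, ‖x‖ ≤ 1 ∧
        ∀ u ∈ p.1.image (adj K), ‖u x - y.ev u‖ < 1 / ((p.2 : ℝ) + 1) :=
      fun p => goldstine y.ev hy _ (by positivity)
    choose x hx1 hx2 using hch
    let U : Ultrafilter (Finset (StrongDual 𝕜 X) × ℕ) := Ultrafilter.of atTop
    have hU : (U : Filter (Finset (StrongDual 𝕜 X) × ℕ)) ≤ atTop := Ultrafilter.of_le atTop
    have hmem : ∀ p, K (x p) ∈ C := fun p => hKC ⟨x p, by simpa using hx1 p, rfl⟩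
    obtain ⟨c, hcC, hc⟩ := hC.ultrafilter_le_nhds (U.map fun p => K (x p))
      (by
        rw [Filter.le_principal_iff]
        change {p | K (x p) ∈ C} ∈ (U : Filter (Finset (StrongDual 𝕜 X) × ℕ))
        exact Filter.mem_of_superset Filter.univ_mem (fun p _ => hmem p))
    refine ⟨c, fun u => ?_⟩
    have h1 : Tendsto (fun p => u (K (x p))) (U : Filter _) (𝓝 (u c)) :=
      (u.continuous.tendsto c).comp hc
    have h2 : Tendsto (fun p : Finset (StrongDual 𝕜 X) × ℕ => u (K (x p))) atTop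
        (𝓝 (y.ev (adj K u))) := by
      rw [Metric.tendsto_atTop]
      intro ε hε
      obtain ⟨n, hn⟩ := exists_nat_one_div_lt hε
      refine ⟨({u}, n), fun p hp => ?_⟩
      have hup : u ∈ p.1 := hp.1 (Finset.mem_singleton_self u)
      have h3 := hx2 p (adj K u) (Finset.mem_image_of_mem _ hup)
      rw [dist_eq_norm]
      refine lt_trans (lt_of_lt_of_le h3 ?_) hn
      apply one_div_le_one_div_of_le (by positivity)
      have : (n : ℝ) ≤ p.2 := by exact_mod_cast hp.2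
      linarith
    exact tendsto_nhds_unique (h2.mono_left hU) h1
  by_cases hy : ‖y‖ = 0
  · refine ⟨0, fun u => ?_⟩
    have h0 := y.ev_le (adj K u)
    rw [hy, zero_mul] at h0
    rw [norm_le_zero_iff.1 h0, map_zero]
  · have hy0 : 0 < ‖y‖ := lt_of_le_of_ne (norm_nonneg y) (Ne.symm hy)
    obtain ⟨c, hc⟩ := main (((‖y‖⁻¹ : ℝ) : 𝕜) • y) (by
      rw [norm_smul, RCLike.norm_ofReal, abs_of_pos (inv_pos.2 hy0), inv_mul_cancel₀ hy])
    refine ⟨(‖y‖ : 𝕜) • c, fun u => ?_⟩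
    rw [map_smul, ← hc u, Bid.ev_smul, smul_eq_mul, ← mul_assoc, ← RCLike.ofReal_mul,
      mul_inv_cancel₀ hy, RCLike.ofReal_one, one_mul]

/-- The canonical embedding into the bidual. -/
noncomputable def j1 : X →L[𝕜] Bid 𝕜 X :=
  LinearMap.mkContinuous
    { toFun := fun x => Bid.mk (inclusionInDoubleDual 𝕜 X x)
      map_add' := fun x y => by
        apply Bid.ext; intro u
        rw [Bid.ev_add]; simp
      map_smul' := fun c x => by
        apply Bid.ext; intro u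
        rw [Bid.ev_smul]; simp } 1 (fun x => by
      rw [one_mul]
      exact double_dual_bound 𝕜 X x)

@[simp] lemma j1_ev (x : X) (u : StrongDual 𝕜 X) : (j1 x : Bid 𝕜 X).ev u = u x := rfl

lemma j1_norm (x : X) : ‖(j1 x : Bid 𝕜 X)‖ = ‖x‖ :=
  (inclusionInDoubleDualLi (E := X) 𝕜).norm_map x

/-- The canonical embedding of `X^*` into `X^{***}`. -/
noncomputable def j2 : StrongDual 𝕜 X →L[𝕜] StrongDual 𝕜 (Bid 𝕜 X) :=
  LinearMap.mkContinuous₂
    { toFun := fun u =>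
        { toFun := fun y : Bid 𝕜 X => y.ev u
          map_add' := fun y z => Bid.ev_add y z u
          map_smul' := fun c y => Bid.ev_smul c y u }
      map_add' := fun u v => by ext y; simp
      map_smul' := fun c u => by ext y; simp } 1 (fun u y => by
      rw [one_mul, mul_comm]
      exact y.ev_le u)

@[simp] lemma j2_apply (u : StrongDual 𝕜 X) (y : Bid 𝕜 X) : j2 u y = y.ev u := rfl

lemma j2_norm (u : StrongDual 𝕜 X) : ‖(j2 u : StrongDual 𝕜 (Bid 𝕜 X))‖ = ‖u‖ := by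
  apply le_antisymm
  · apply ContinuousLinearMap.opNorm_le_bound _ (norm_nonneg _)
    intro y
    rw [j2_apply, mul_comm]
    exact y.ev_le u
  · apply ContinuousLinearMap.opNorm_le_bound _ (norm_nonneg _)
    intro x
    have := (j2 u).le_opNorm (j1 x)
    rwa [j2_apply, j1_ev, j1_norm] at this

/-- The restriction of functionals from `X^{**}` to `X`. -/
noncomputable def res : StrongDual 𝕜 (Bid 𝕜 X) →L[𝕜] StrongDual 𝕜 X := adj j1

@[simp] lemma res_apply (w : StrongDual 𝕜 (Bid 𝕜 X)) (x : X) : res w x = w (j1 x) := rfl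

@[simp] lemma res_j2 (u : StrongDual 𝕜 X) : res (j2 u) = u := by
  ext x; simp

lemma res_norm_le (w : StrongDual 𝕜 (Bid 𝕜 X)) : ‖res w‖ ≤ ‖w‖ := by
  apply ContinuousLinearMap.opNorm_le_bound _ (norm_nonneg _)
  intro x
  rw [res_apply]
  refine (w.le_opNorm _).trans ?_
  rw [j1_norm]

/-- the second adjoint, applied to an element of the bidual -/
noncomputable def bi (T : X →L[𝕜] X) (y : Bid 𝕜 X) : Bid 𝕜 X := Bid.mk (y.ev.comp (adj T))

@[simp] lemma bi_ev (T : X →L[𝕜] X) (y : Bid 𝕜 X) (u : StrongDual 𝕜 X) :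
    (bi T y).ev u = y.ev (adj T u) := rfl

lemma bi_norm_le (T : X →L[𝕜] X) (y : Bid 𝕜 X) : ‖bi T y‖ ≤ ‖T‖ * ‖y‖ := by
  apply Bid.norm_le (by positivity)
  intro u
  rw [bi_ev]
  refine (y.ev_le _).trans ?_
  have h1 : ‖adj T u‖ ≤ ‖T‖ * ‖u‖ :=
    ((adj T).le_opNorm u).trans (mul_le_mul_of_nonneg_right (adj_norm_le T) (norm_nonneg _))
  calc ‖y‖ * ‖adj T u‖ ≤ ‖y‖ * (‖T‖ * ‖u‖) := mul_le_mul_of_nonneg_left h1 (norm_nonneg _)
    _ = ‖T‖ * ‖y‖ * ‖u‖ := by ring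

lemma bi_add_left (S T : X →L[𝕜] X) (y : Bid 𝕜 X) : bi (S + T) y = bi S y + bi T y := by
  apply Bid.ext; intro u
  rw [Bid.ev_add, bi_ev, bi_ev, bi_ev, adj_add, _root_.add_apply, map_add]

lemma bi_smul_left (c : 𝕜) (T : X →L[𝕜] X) (y : Bid 𝕜 X) : bi (c • T) y = c • bi T y := by
  apply Bid.ext; intro u
  rw [Bid.ev_smul, bi_ev, bi_ev, adj_smul, _root_.smul_apply, map_smul, smul_eq_mul]

lemma bi_add_right (T : X →L[𝕜] X) (y z : Bid 𝕜 X) : bi T (y + z) = bi T y + bi T z := by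
  apply Bid.ext; intro u
  simp only [Bid.ev_add, bi_ev]

lemma bi_smul_right (c : 𝕜) (T : X →L[𝕜] X) (y : Bid 𝕜 X) : bi T (c • y) = c • bi T y := by
  apply Bid.ext; intro u
  simp only [Bid.ev_smul, bi_ev]

lemma bi_id (y : Bid 𝕜 X) : bi (ContinuousLinearMap.id 𝕜 X) y = y := by
  apply Bid.ext; intro u
  rw [bi_ev, adj_id]; rfl

/-- functionals on `X^{**}` see the range of the second adjoint of a compact operator only
through their restriction to `X` -/
lemma annih_compact {K : X →L[𝕜] X} (hK : IsCompactOperator K)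
    (y : Bid 𝕜 X) (w : StrongDual 𝕜 (Bid 𝕜 X)) :
    w (bi K y) = (j2 (res w)) (bi K y) := by
  obtain ⟨c, hc⟩ := compact_bidual hK y
  have h1 : bi K y = j1 c := by
    apply Bid.ext; intro u
    rw [bi_ev, hc u, j1_ev]
  rw [h1]
  simp

end Pool.Agent.MP_4f1eb4_an
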