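import Mathlib

open NormedSpace Filter Topology Set

namespace Pool.Agent.MP_4f1eb4_an

variable {𝕜 X : Type*} [RCLike 𝕜] [NormedAddCommGroup X] [NormedSpace 𝕜 X]

/-- The numerical radius `v(T)`, the supremum of `|x^*(T x)|` over norm-one `x`, `x^*` with
`x^*(x) = 1`. -/
noncomputable def numRadius (T : X →L[𝕜] X) : ℝ :=
  sSup {r : ℝ | ∃ (f : StrongDual 𝕜 X) (x : X), ‖f‖ = 1 ∧ ‖x‖ = 1 ∧ f x = 1 ∧ r = ‖f (T x)‖}

variable (𝕜 X) in
/-- The numerical index `n(X)`, the infimum of `v(T)` over operators of norm one. -/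
noncomputable def numIndex : ℝ :=
  sInf {r : ℝ | ∃ T : X →L[𝕜] X, ‖T‖ = 1 ∧ r = numRadius T}

lemma numRadius_bdd (T : X →L[𝕜] X) :
    BddAbove {r : ℝ | ∃ (f : StrongDual 𝕜 X) (x : X), ‖f‖ = 1 ∧ ‖x‖ = 1 ∧ f x = 1 ∧
      r = ‖f (T x)‖} := by
  refine ⟨‖T‖, ?_⟩
  rintro r ⟨f, x, hf, hx, -, rfl⟩
  calc ‖f (T x)‖ ≤ ‖f‖ * ‖T x‖ := f.le_opNorm _
    _ ≤ 1 * (‖T‖ * ‖x‖) := by rw [hf]; gcongr; exact T.le_opNorm _
    _ = ‖T‖ := by rw [hx]; ring

lemma le_numRadius (T : X →L[𝕜] X) {f : StrongDual 𝕜 X} {x : X} (hf : ‖f‖ = 1) (hx : ‖x‖ = 1)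
    (h : f x = 1) : ‖f (T x)‖ ≤ numRadius T :=
  le_csSup (numRadius_bdd T) ⟨f, x, hf, hx, h, rfl⟩

lemma numRadius_le {T : X →L[𝕜] X} {C : ℝ} (hC : 0 ≤ C)
    (h : ∀ (f : StrongDual 𝕜 X) (x : X), ‖f‖ = 1 → ‖x‖ = 1 → f x = 1 → ‖f (T x)‖ ≤ C) :
    numRadius T ≤ C := by
  apply Real.sSup_le _ hC
  rintro r ⟨f, x, hf, hx, hfx, rfl⟩
  exact h f x hf hx hfx

lemma numRadius_nonneg (T : X →L[𝕜] X) : 0 ≤ numRadius T := by
  apply Real.sSup_nonneg
  rintro r ⟨f, x, -, -, -, rfl⟩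
  exact norm_nonneg _

lemma numRadius_le_norm (T : X →L[𝕜] X) : numRadius T ≤ ‖T‖ := by
  apply numRadius_le (norm_nonneg _)
  intro f x hf hx _
  calc ‖f (T x)‖ ≤ ‖f‖ * ‖T x‖ := f.le_opNorm _
    _ ≤ 1 * (‖T‖ * ‖x‖) := by rw [hf]; gcongr; exact T.le_opNorm _
    _ = ‖T‖ := by rw [hx]; ring

lemma numRadius_add (S T : X →L[𝕜] X) : numRadius (S + T) ≤ numRadius S + numRadius T := by
  apply numRadius_le (add_nonneg (numRadius_nonneg _) (numRadius_nonneg _))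
  intro f x hf hx h
  have e : f ((S + T) x) = f (S x) + f (T x) := by
    rw [_root_.add_apply, map_add]
  rw [e]
  exact (norm_add_le _ _).trans (add_le_add (le_numRadius S hf hx h) (le_numRadius T hf hx h))

lemma numRadius_smul_le (c : 𝕜) (T : X →L[𝕜] X) : numRadius (c • T) ≤ ‖c‖ * numRadius T := by
  apply numRadius_le (mul_nonneg (norm_nonneg _) (numRadius_nonneg _))
  intro f x hf hx h
  have e : f ((c • T) x) = c * f (T x) := by
    rw [_root_.smul_apply, map_smul, smul_eq_mul]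
  rw [e, norm_mul]
  exact mul_le_mul_of_nonneg_left (le_numRadius T hf hx h) (norm_nonneg _)

lemma numRadius_smul (c : 𝕜) (T : X →L[𝕜] X) : numRadius (c • T) = ‖c‖ * numRadius T := by
  apply le_antisymm (numRadius_smul_le c T)
  by_cases hc : c = 0
  · subst hc
    simp only [norm_zero, zero_mul]
    exact numRadius_nonneg _
  · have h := numRadius_smul_le c⁻¹ (c • T)
    rw [smul_smul, inv_mul_cancel₀ hc, one_smul, norm_inv] at h
    have hc' : 0 < ‖c‖ := norm_pos_iff.2 hc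
    calc ‖c‖ * numRadius T ≤ ‖c‖ * (‖c‖⁻¹ * numRadius (c • T)) :=
          mul_le_mul_of_nonneg_left h hc'.le
      _ = numRadius (c • T) := by field_simp

lemma numRadius_neg (T : X →L[𝕜] X) : numRadius (-T) = numRadius T := by
  have := numRadius_smul (-1 : 𝕜) T
  simpa using this

lemma numRadius_zero : numRadius (0 : X →L[𝕜] X) = 0 := by
  have := numRadius_smul (0 : 𝕜) (0 : X →L[𝕜] X)
  simpa using this

/-- `n(X) ‖T‖ ≤ v(T)`. -/
lemma numIndex_mul_norm_le (T : X →L[𝕜] X) : numIndex 𝕜 X * ‖T‖ ≤ numRadius T := by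
  by_cases hT : T = 0
  · subst hT
    simp [numRadius_zero]
  · have hT' : 0 < ‖T‖ := norm_pos_iff.2 hT
    have hn : ‖((‖T‖⁻¹ : ℝ) : 𝕜) • T‖ = 1 := by
      rw [norm_smul, RCLike.norm_ofReal, abs_of_pos (inv_pos.2 hT')]
      exact inv_mul_cancel₀ hT'.ne'
    have h1 : numIndex 𝕜 X ≤ numRadius (((‖T‖⁻¹ : ℝ) : 𝕜) • T) := by
      apply csInf_le
      · refine ⟨0, ?_⟩
        rintro r ⟨S, -, rfl⟩
        exact numRadius_nonneg _
      · exact ⟨_, hn, rfl⟩
    rw [numRadius_smul, RCLike.norm_ofReal, abs_of_pos (inv_pos.2 hT')] at h1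
    calc numIndex 𝕜 X * ‖T‖ ≤ (‖T‖⁻¹ * numRadius T) * ‖T‖ :=
          mul_le_mul_of_nonneg_right h1 hT'.le
      _ = numRadius T := by field_simp

variable (𝕜 X) in
/-- The space `L_v(X)` of bounded operators on `X`; it will carry the norm `v`. -/
def Lv : Type _ := X →L[𝕜] X

/-- The operator underlying an element of `L_v(X)`. -/
def Lv.op (T : Lv 𝕜 X) : X →L[𝕜] X := T

/-- An operator as an element of `L_v(X)`. -/
def Lv.of (T : X →L[𝕜] X) : Lv 𝕜 X := T

noncomputable instance : AddCommGroup (Lv 𝕜 X) :=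
  ContinuousLinearMap.addCommGroup (M := X) (M₂ := X) (σ₁₂ := RingHom.id 𝕜)

noncomputable instance : Module 𝕜 (Lv 𝕜 X) :=
  ContinuousLinearMap.module (R := 𝕜) (R₃ := 𝕜) (S₃ := 𝕜) (M := X) (M₃ := X) (σ₁₃ := RingHom.id 𝕜)

@[simp] lemma Lv.op_of (T : X →L[𝕜] X) : (Lv.of T).op = T := rfl

@[simp] lemma Lv.op_add (S T : Lv 𝕜 X) : (S + T).op = S.op + T.op := rfl

@[simp] lemma Lv.op_smul (c : 𝕜) (T : Lv 𝕜 X) : (c • T).op = c • T.op := rfl

@[simp] lemma Lv.op_neg (T : Lv 𝕜 X) : (-T).op = -T.op := rfl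

@[simp] lemma Lv.op_zero : (0 : Lv 𝕜 X).op = 0 := rfl

/-- The numerical radius as a group norm. -/
noncomputable def vNorm (h : 0 < numIndex 𝕜 X) : AddGroupNorm (Lv 𝕜 X) where
  toFun T := numRadius T.op
  map_zero' := numRadius_zero
  add_le' S T := numRadius_add S.op T.op
  neg' T := numRadius_neg T.op
  eq_zero_of_map_eq_zero' T hT := by
    have h1 := numIndex_mul_norm_le (𝕜 := 𝕜) (X := X) T.op
    rw [hT] at h1
    have h3 : ‖T.op‖ ≤ 0 := by
      by_contra hcon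
      push Not at hcon
      have := mul_pos h hcon
      linarith
    exact norm_le_zero_iff.1 h3

/-- If `n(X) > 0` then the numerical radius is a norm on the space of bounded operators. -/
noncomputable instance [h : Fact (0 < numIndex 𝕜 X)] : NormedAddCommGroup (Lv 𝕜 X) :=
  (vNorm h.out).toNormedAddCommGroup

lemma Lv_norm_def [Fact (0 < numIndex 𝕜 X)] (T : Lv 𝕜 X) : ‖T‖ = numRadius T.op := rfl

noncomputable instance [Fact (0 < numIndex 𝕜 X)] : NormedSpace 𝕜 (Lv 𝕜 X) where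
  norm_smul_le c T := numRadius_smul_le c T.op

variable (𝕜 X) in
/-- The subspace `K_v(X)` of compact operators. -/
def Kv : Submodule 𝕜 (Lv 𝕜 X) where
  carrier := {T | IsCompactOperator T.op}
  add_mem' := fun {S T} hS hT => by
    have h : IsCompactOperator (S.op + T.op) := IsCompactOperator.add hS hT
    exact h
  zero_mem' := by
    have h : IsCompactOperator (0 : X → X) := isCompactOperator_zero
    exact h
  smul_mem' := fun c {T} hT => by
    have h : IsCompactOperator (c • T.op) := IsCompactOperator.smul hT c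
    exact h

variable (𝕜) in
/-- A closed subspace `J` of a normed space `Y` is an M-ideal if there is a linear projection `P`
on `Y^*` whose kernel is the annihilator of `J` and with `‖φ‖ = ‖P φ‖ + ‖φ - P φ‖`. -/
def IsMIdeal {Y : Type*} [NormedAddCommGroup Y] [NormedSpace 𝕜 Y] (J : Submodule 𝕜 Y) : Prop :=
  IsClosed (J : Set Y) ∧ ∃ P : StrongDual 𝕜 Y →ₗ[𝕜] StrongDual 𝕜 Y,
    (∀ φ, P (P φ) = P φ) ∧ (∀ φ, P φ = 0 ↔ ∀ y ∈ J, φ y = 0) ∧
    ∀ φ, ‖φ‖ = ‖P φ‖ + ‖φ - P φ‖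

variable (𝕜 X) in
/-- `X` is Asplund: every separable closed subspace has a separable dual. -/
def IsAsplund : Prop :=
  ∀ Z : Submodule 𝕜 X, IsClosed (Z : Set X) → TopologicalSpace.SeparableSpace Z →
    TopologicalSpace.SeparableSpace (StrongDual 𝕜 Z)

end Pool.Agent.MP_4f1eb4_an
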