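import Pool.Agent.MP_4f1eb4_an.Ideal

open NormedSpace Filter Topology Set

namespace Pool.Agent.MP_4f1eb4_an

variable {𝕜 X : Type*} [RCLike 𝕜] [NormedAddCommGroup X] [NormedSpace 𝕜 X]

/-- a rank one operator -/
noncomputable def rk (f : StrongDual 𝕜 X) (x : X) : X →L[𝕜] X := f.smulRight x

lemma rk_apply (f : StrongDual 𝕜 X) (x z : X) : rk f x z = f z • x := rfl

lemma rk_norm_le (f : StrongDual 𝕜 X) (x : X) : ‖rk f x‖ ≤ ‖f‖ * ‖x‖ := by
  apply ContinuousLinearMap.opNorm_le_bound _ (by positivity)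
  intro z
  rw [rk_apply, norm_smul]
  have := mul_le_mul_of_nonneg_right (f.le_opNorm z) (norm_nonneg x)
  linarith

lemma rk_compact (f : StrongDual 𝕜 X) (x : X) : IsCompactOperator (rk f x) := by
  have h1 : IsCompactOperator (ContinuousLinearMap.toSpanSingleton 𝕜 x : 𝕜 → X) :=
    isCompactOperator_of_locallyCompactSpace_rng _
  exact h1.comp_clm f

lemma bi_rk (f : StrongDual 𝕜 X) (x : X) (y : Bid 𝕜 X) : bi (rk f x) y = y.ev f • j1 x := by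
  apply Bid.ext; intro u
  have h1 : adj (rk f x) u = u x • f := by
    ext z; rw [adj_apply, rk_apply]; simp [mul_comm]
  rw [bi_ev, h1, map_smul, Bid.ev_smul, j1_ev, smul_eq_mul, mul_comm]

variable [hfact : Fact (0 < numIndex 𝕜 X)]

/-- the M-ideal projection -/
structure Proj (P : StrongDual 𝕜 (Lv 𝕜 X) →ₗ[𝕜] StrongDual 𝕜 (Lv 𝕜 X)) : Prop where
  idem : ∀ φ, P (P φ) = P φ
  ker : ∀ φ, P φ = 0 ↔ ∀ y ∈ Kv 𝕜 X, φ y = 0
  norm : ∀ φ, ‖φ‖ = ‖P φ‖ + ‖φ - P φ‖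

variable {P : StrongDual 𝕜 (Lv 𝕜 X) →ₗ[𝕜] StrongDual 𝕜 (Lv 𝕜 X)}

lemma Proj.agree (h : Proj P) (φ : StrongDual 𝕜 (Lv 𝕜 X)) {K : Lv 𝕜 X} (hK : K ∈ Kv 𝕜 X) :
    P φ K = φ K := by
  have h1 : P (φ - P φ) = 0 := by rw [map_sub, h.idem, sub_self]
  have h2 := (h.ker _).1 h1 K hK
  rw [_root_.sub_apply, sub_eq_zero] at h2
  exact h2.symm

lemma Proj.congr (h : Proj P) {φ ψ : StrongDual 𝕜 (Lv 𝕜 X)} (hφ : ∀ K ∈ Kv 𝕜 X, φ K = ψ K) :
    P φ = P ψ := by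
  have h1 : P (φ - ψ) = 0 := (h.ker _).2 (fun K hK => by
    rw [_root_.sub_apply, hφ K hK, sub_self])
  rw [map_sub, sub_eq_zero] at h1
  exact h1

lemma Proj.norm_le (h : Proj P) (φ : StrongDual 𝕜 (Lv 𝕜 X)) : ‖P φ‖ ≤ ‖φ‖ := by
  have := h.norm φ
  linarith [norm_nonneg (φ - P φ)]

lemma Proj.Phi_res (h : Proj P) (w : StrongDual 𝕜 (Bid 𝕜 X)) (y : Bid 𝕜 X) :
    P (Phi w y) = P (Phi (j2 (res w)) y) :=
  h.congr (fun K hK => annih_compact (K := K.op) hK y w)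

lemma Proj.lower (h : Proj P) (w : StrongDual 𝕜 (Bid 𝕜 X)) (y : Bid 𝕜 X) :
    ‖res w‖ * ‖y‖ ≤ ‖P (Phi w y)‖ := by
  set C := ‖P (Phi w y)‖ with hC
  have key : ∀ (f : StrongDual 𝕜 X) (x : X), ‖res w x‖ * ‖y.ev f‖ ≤ C * ‖x‖ * ‖f‖ := by
    intro f x
    have h1 : P (Phi w y) (Lv.of (rk f x)) = Phi w y (Lv.of (rk f x)) :=
      h.agree _ (rk_compact f x)
    have h2 : Phi w y (Lv.of (rk f x)) = y.ev f * res w x := by
      rw [Phi_apply, Lv.op_of, bi_rk, map_smul, res_apply, smul_eq_mul]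
    have h3 := (P (Phi w y)).le_opNorm (Lv.of (rk f x))
    rw [h1, h2, norm_mul] at h3
    have h4 : ‖Lv.of (rk f x)‖ ≤ ‖f‖ * ‖x‖ := (of_norm_le _).trans (rk_norm_le f x)
    have h5 := mul_le_mul_of_nonneg_left h4 (norm_nonneg (P (Phi w y)))
    nlinarith
  have key2 : ∀ x : X, ‖res w x‖ * ‖y‖ ≤ C * ‖x‖ := by
    intro x
    have h1 : ‖(res w x) • y‖ ≤ C * ‖x‖ := by
      apply Bid.norm_le (by positivity)
      intro u
      rw [Bid.ev_smul, norm_mul]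
      exact key u x
    rwa [norm_smul] at h1
  have h2 : ‖(‖y‖ : 𝕜) • res w‖ ≤ C := by
    apply ContinuousLinearMap.opNorm_le_bound _ (norm_nonneg _)
    intro x
    rw [_root_.smul_apply, norm_smul, RCLike.norm_ofReal, abs_of_nonneg (norm_nonneg _)]
    have := key2 x
    linarith
  rw [norm_smul, RCLike.norm_ofReal, abs_of_nonneg (norm_nonneg _)] at h2
  linarith

variable (𝕜 X) in
/-- the identity operator as an element of `L_v(X)` -/
noncomputable def idv : Lv 𝕜 X := Lv.of (ContinuousLinearMap.id 𝕜 X)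

lemma idv_norm : ‖idv 𝕜 X‖ ≤ 1 := (of_norm_le _).trans ContinuousLinearMap.norm_id_le

lemma Phi_idv (w : StrongDual 𝕜 (Bid 𝕜 X)) (y : Bid 𝕜 X) : Phi w y (idv 𝕜 X) = w y := by
  rw [Phi_apply, idv, Lv.op_of, bi_id]

/-- The operator `R : X^* → X^{***}`. -/
noncomputable def RO (h : Proj P) : StrongDual 𝕜 X →L[𝕜] StrongDual 𝕜 (Bid 𝕜 X) :=
  LinearMap.mkContinuous₂
    { toFun := fun u =>
        { toFun := fun y : Bid 𝕜 X => P (Phi (j2 u) y) (idv 𝕜 X)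
          map_add' := fun y z => by rw [Phi_add_right, map_add, _root_.add_apply]
          map_smul' := fun c y => by rw [Phi_smul_right, map_smul, _root_.smul_apply]; rfl }
      map_add' := fun u v => by
        ext y
        simp only [LinearMap.coe_mk, AddHom.coe_mk, LinearMap.add_apply]
        rw [map_add, Phi_add_left, map_add, _root_.add_apply]
      map_smul' := fun c u => by
        ext y
        simp only [LinearMap.coe_mk, AddHom.coe_mk, LinearMap.smul_apply, RingHom.id_apply]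
        rw [map_smul, Phi_smul_left, map_smul, _root_.smul_apply] } (numIndex 𝕜 X)⁻¹ (fun u y => by
      show ‖P (Phi (j2 u) y) (idv 𝕜 X)‖ ≤ _
      have h1 := (P (Phi (j2 u) y)).le_opNorm (idv 𝕜 X)
      have h2 := h.norm_le (Phi (j2 u) y)
      have h3 := Phi_norm_le (j2 u) y
      rw [j2_norm] at h3
      calc ‖P (Phi (j2 u) y) (idv 𝕜 X)‖ ≤ ‖P (Phi (j2 u) y)‖ * ‖idv 𝕜 X‖ := h1
        _ ≤ ‖P (Phi (j2 u) y)‖ * 1 := mul_le_mul_of_nonneg_left idv_norm (norm_nonneg _)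
        _ ≤ ‖u‖ * ‖y‖ * (numIndex 𝕜 X)⁻¹ := by rw [mul_one]; exact h2.trans h3
        _ = (numIndex 𝕜 X)⁻¹ * ‖u‖ * ‖y‖ := by ring)

lemma RO_apply (h : Proj P) (u : StrongDual 𝕜 X) (y : Bid 𝕜 X) :
    RO h u y = P (Phi (j2 u) y) (idv 𝕜 X) := rfl

/-- main inequality -/
lemma Proj.main (h : Proj P) {w : StrongDual 𝕜 (Bid 𝕜 X)} {y : Bid 𝕜 X} {η : ℝ}
    (hη : ‖Phi w y‖ ≤ 1 + η) : ‖w y - RO h (res w) y‖ ≤ 1 + η - ‖res w‖ * ‖y‖ := by
  have h1 : w y - RO h (res w) y = (Phi w y - P (Phi w y)) (idv 𝕜 X) := by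
    rw [_root_.sub_apply, Phi_idv, RO_apply, ← h.Phi_res]
  rw [h1]
  have h2 := (Phi w y - P (Phi w y)).le_opNorm (idv 𝕜 X)
  have h3 := mul_le_mul_of_nonneg_left (idv_norm (𝕜 := 𝕜) (X := X)) (norm_nonneg (Phi w y - P (Phi w y)))
  have h4 := h.norm (Phi w y)
  have h5 := h.lower w y
  linarith

lemma Proj.L1 (h : Proj P) {w : StrongDual 𝕜 (Bid 𝕜 X)} (hw : ‖w‖ = 1) {s : ℝ} (hs : 0 ≤ s) :
    1 + s * ‖res w‖ ≤ ‖w + (s : 𝕜) • RO h (res w)‖ := by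
  apply le_of_forall_pos_le_add
  intro η' hη'
  set η : ℝ := η' / (1 + 3 * s) with hη
  have hη0 : 0 < η := by positivity
  obtain ⟨ε, hε0, hεη, hε⟩ := near (𝕜 := 𝕜) (X := X) hη0
  obtain ⟨y, hy, hwy⟩ := approx_norm w hε0
  rw [hw] at hwy
  have h1 := h.main (hε w y hw.le hy hwy)
  have h2 : RCLike.re (w y - RO h (res w) y) ≤ 1 + η - ‖res w‖ * ‖y‖ :=
    (RCLike.re_le_norm _).trans h1
  rw [map_sub] at h2
  have h3 : 1 - ε ≤ ‖y‖ := by
    have h4 := (RCLike.re_le_norm _).trans (w.le_opNorm y)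
    rw [hw, one_mul] at h4
    linarith
  have h4 : ‖res w‖ ≤ 1 := by rw [← hw]; exact res_norm_le w
  have h5 : ‖res w‖ - ε ≤ ‖res w‖ * ‖y‖ := by nlinarith [norm_nonneg (res w)]
  have h6 : RCLike.re ((w + (s : 𝕜) • RO h (res w)) y) ≤ ‖w + (s : 𝕜) • RO h (res w)‖ := by
    refine (RCLike.re_le_norm _).trans (((w + (s : 𝕜) • RO h (res w)).le_opNorm y).trans ?_)
    exact mul_le_of_le_one_right (norm_nonneg _) hy
  rw [_root_.add_apply, _root_.smul_apply, map_add, smul_eq_mul, RCLike.re_ofReal_mul] at h6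
  have h7 : s * (‖res w‖ - 3 * η) ≤ s * RCLike.re (RO h (res w) y) := by
    apply mul_le_mul_of_nonneg_left _ hs
    linarith
  have h8 : η * (1 + 3 * s) = η' := by rw [hη]; field_simp
  nlinarith

lemma Proj.L (h : Proj P) (w : StrongDual 𝕜 (Bid 𝕜 X)) {s : ℝ} (hs : 0 ≤ s) :
    ‖w‖ + s * ‖res w‖ ≤ ‖w + (s : 𝕜) • RO h (res w)‖ := by
  by_cases hw : ‖w‖ = 0
  · have h0 : w = 0 := norm_le_zero_iff.1 hw.le
    rw [h0]; simp
  · have hw0 : 0 < ‖w‖ := lt_of_le_of_ne (norm_nonneg _) (Ne.symm hw)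
    set c : 𝕜 := ((‖w‖⁻¹ : ℝ) : 𝕜) with hc
    have hcn : ‖c‖ = ‖w‖⁻¹ := by rw [hc, RCLike.norm_ofReal, abs_of_pos (inv_pos.2 hw0)]
    have h1 := h.L1 (w := c • w) (by rw [norm_smul, hcn, inv_mul_cancel₀ hw]) hs
    have e : c • w + (s : 𝕜) • RO h (res (c • w)) = c • (w + (s : 𝕜) • RO h (res w)) := by
      rw [map_smul, map_smul, smul_add, smul_smul, smul_smul, mul_comm]
    rw [e, map_smul, norm_smul, norm_smul, hcn] at h1
    have h2 := mul_le_mul_of_nonneg_left h1 hw0.le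
    have e1 : ‖w‖ * (1 + s * (‖w‖⁻¹ * ‖res w‖)) = ‖w‖ + s * ‖res w‖ := by
      field_simp
    have e2 : ‖w‖ * (‖w‖⁻¹ * ‖w + (s : 𝕜) • RO h (res w)‖) = ‖w + (s : 𝕜) • RO h (res w)‖ := by
      field_simp
    rw [e1, e2] at h2
    exact h2

/-- The operator `B = π R` on `X^*`. -/
noncomputable def BO (h : Proj P) : StrongDual 𝕜 X →L[𝕜] StrongDual 𝕜 X := res.comp (RO h)

lemma BO_apply (h : Proj P) (u : StrongDual 𝕜 X) : BO h u = res (RO h u) := rfl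

/-- `A = B - 1` is skew -/
lemma Proj.A1' (h : Proj P) {u : StrongDual 𝕜 X} (hu : ‖u‖ = 1) (t : ℝ) :
    1 ≤ ‖u + (t : 𝕜) • (BO h u - u)‖ := by
  apply le_of_forall_pos_le_add
  intro η' hη'
  set η : ℝ := η' / (1 + 2 * |t|) with hη
  have ht := abs_nonneg t
  have hη0 : 0 < η := by positivity
  obtain ⟨ε, hε0, hεη, hε⟩ := near (𝕜 := 𝕜) (X := X) hη0
  obtain ⟨x, hx, hux⟩ := approx_norm u hε0
  rw [hu] at hux
  have hy : ‖(j1 x : Bid 𝕜 X)‖ ≤ 1 := by rw [j1_norm]; exact hx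
  have hw : ‖(j2 u : StrongDual 𝕜 (Bid 𝕜 X))‖ ≤ 1 := by rw [j2_norm, hu]
  have h1 := h.main (hε (j2 u) (j1 x) hw hy (by rw [j2_apply, j1_ev]; exact hux))
  rw [j2_apply, j1_ev, res_j2, ← res_apply, ← BO_apply, hu, one_mul, j1_norm] at h1
  have h3 : 1 - ε ≤ ‖x‖ := by
    have h4 := (RCLike.re_le_norm _).trans (u.le_opNorm x)
    rw [hu, one_mul] at h4
    linarith
  have h4 : ‖(BO h u - u) x‖ ≤ 2 * η := by
    rw [_root_.sub_apply, norm_sub_rev]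
    linarith
  have h5 : RCLike.re ((u + (t : 𝕜) • (BO h u - u)) x) ≤ ‖u + (t : 𝕜) • (BO h u - u)‖ := by
    refine (RCLike.re_le_norm _).trans (((u + (t : 𝕜) • (BO h u - u)).le_opNorm x).trans ?_)
    exact mul_le_of_le_one_right (norm_nonneg _) hx
  rw [_root_.add_apply, _root_.smul_apply, map_add, smul_eq_mul, RCLike.re_ofReal_mul] at h5
  have h6 : |t * RCLike.re ((BO h u - u) x)| ≤ |t| * (2 * η) := by
    rw [abs_mul]
    exact mul_le_mul_of_nonneg_left ((RCLike.abs_re_le_norm _).trans h4) ht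
  have h7 := (abs_le.1 h6).1
  have h8 : η * (1 + 2 * |t|) = η' := by rw [hη]; field_simp
  nlinarith

lemma Proj.A1 (h : Proj P) (u : StrongDual 𝕜 X) (t : ℝ) :
    ‖u‖ ≤ ‖u + (t : 𝕜) • (BO h u - u)‖ := by
  by_cases hu : ‖u‖ = 0
  · rw [hu]; exact norm_nonneg _
  · have hu0 : 0 < ‖u‖ := lt_of_le_of_ne (norm_nonneg _) (Ne.symm hu)
    set c : 𝕜 := ((‖u‖⁻¹ : ℝ) : 𝕜) with hc
    have hcn : ‖c‖ = ‖u‖⁻¹ := by rw [hc, RCLike.norm_ofReal, abs_of_pos (inv_pos.2 hu0)]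
    have h1 := h.A1' (u := c • u) (by rw [norm_smul, hcn, inv_mul_cancel₀ hu]) t
    have e : c • u + (t : 𝕜) • (BO h (c • u) - c • u) = c • (u + (t : 𝕜) • (BO h u - u)) := by
      rw [map_smul]
      ext x
      simp only [_root_.add_apply, _root_.smul_apply, _root_.sub_apply, smul_eq_mul]
      ring
    rw [e, norm_smul, hcn] at h1
    have h2 := mul_le_mul_of_nonneg_left h1 hu0.le
    have e2 : ‖u‖ * (‖u‖⁻¹ * ‖u + (t : 𝕜) • (BO h u - u)‖) = ‖u + (t : 𝕜) • (BO h u - u)‖ := by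
      field_simp
    rw [e2, mul_one] at h2
    exact h2

end Pool.Agent.MP_4f1eb4_an
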