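import Pool.Agent.MP_4f1eb4_an.Embed

open NormedSpace Filter Topology Set

namespace Pool.Agent.MP_4f1eb4_an

variable {𝕜 X : Type*} [RCLike 𝕜] [NormedAddCommGroup X] [NormedSpace 𝕜 X]
variable [hfact : Fact (0 < numIndex 𝕜 X)]
variable {P : StrongDual 𝕜 (Lv 𝕜 X) →ₗ[𝕜] StrongDual 𝕜 (Lv 𝕜 X)}

/-- the operator `A = B - 1` -/
noncomputable def AO (h : Proj P) : StrongDual 𝕜 X →L[𝕜] StrongDual 𝕜 X :=
  BO h - ContinuousLinearMap.id 𝕜 _

lemma AO_apply (h : Proj P) (u : StrongDual 𝕜 X) : AO h u = BO h u - u := rfl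

lemma Proj.A2 (h : Proj P) (u : StrongDual 𝕜 X) (t : ℝ) :
    ‖u + (t : 𝕜) • AO h u‖ ≤ ‖u‖ + t^2 * (‖AO h‖^2 * ‖u‖) := by
  have h1 := h.A1 (u + (t : 𝕜) • AO h u) (-t)
  rw [← AO_apply, map_add, map_smul] at h1
  have e : u + (t : 𝕜) • AO h u + ((-t : ℝ) : 𝕜) • (AO h u + (t : 𝕜) • AO h (AO h u)) =
      u - ((t : 𝕜) * (t : 𝕜)) • AO h (AO h u) := by
    ext x
    simp only [_root_.add_apply, _root_.smul_apply, _root_.sub_apply, smul_eq_mul,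
      RCLike.ofReal_neg]
    ring
  rw [e] at h1
  refine h1.trans ((norm_sub_le _ _).trans ?_)
  have h2 : ‖AO h (AO h u)‖ ≤ ‖AO h‖^2 * ‖u‖ := by
    refine ((AO h).le_opNorm _).trans ?_
    have := mul_le_mul_of_nonneg_left ((AO h).le_opNorm u) (norm_nonneg (AO h))
    linarith
  rw [norm_smul, norm_mul, RCLike.norm_ofReal, abs_mul_abs_self]
  have := mul_le_mul_of_nonneg_left h2 (mul_self_nonneg t)
  linarith

lemma M_eq (h : Proj P) (v : StrongDual 𝕜 X) {s : ℝ} (hs : 0 < s) :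
    v + (s : 𝕜) • BO h v = ((1 + s : ℝ) : 𝕜) • (v + ((s / (1 + s) : ℝ) : 𝕜) • AO h v) := by
  have hne : ((1 + s : ℝ) : 𝕜) ≠ 0 := by
    rw [Ne, RCLike.ofReal_eq_zero]; linarith
  rw [AO_apply, smul_add, smul_smul, ← RCLike.ofReal_mul, mul_div_cancel₀ _ (by linarith)]
  ext x
  simp only [_root_.add_apply, _root_.smul_apply, _root_.sub_apply, smul_eq_mul,
    RCLike.ofReal_add, RCLike.ofReal_one]
  ring

lemma M_lower (h : Proj P) (v : StrongDual 𝕜 X) {s : ℝ} (hs : 0 < s) :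
    (1 + s) * ‖v‖ ≤ ‖v + (s : 𝕜) • BO h v‖ := by
  rw [M_eq h v hs, norm_smul, RCLike.norm_ofReal, abs_of_pos (by linarith)]
  exact mul_le_mul_of_nonneg_left (h.A1 v _) (by linarith)

lemma M_upper (h : Proj P) (v : StrongDual 𝕜 X) {s : ℝ} (hs : 0 < s) :
    ‖v + (s : 𝕜) • BO h v‖ ≤ (1 + s) * (‖v‖ + s^2 * (‖AO h‖^2 * ‖v‖)) := by
  rw [M_eq h v hs, norm_smul, RCLike.norm_ofReal, abs_of_pos (by linarith)]
  apply mul_le_mul_of_nonneg_left _ (by linarith)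
  refine (h.A2 v _).trans ?_
  have h1 : s / (1 + s) ≤ s := by
    rw [div_le_iff₀ (by linarith)]; nlinarith
  have h2 : (s / (1 + s))^2 ≤ s^2 := pow_le_pow_left₀ (by positivity) h1 2
  have h3 : 0 ≤ ‖AO h‖^2 * ‖v‖ := by positivity
  nlinarith

lemma surj_abstract {E : Type*} [NormedAddCommGroup E] [NormedSpace 𝕜 E] [CompleteSpace E]
    (B : E →L[𝕜] E) {s : ℝ} (hs : 0 < s) (hs2 : s * ‖B‖ < 1) (v' : E) :
    ∃ v, v + (s : 𝕜) • B v = v' := by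
  have h1 : ‖-((s : 𝕜) • B)‖ < 1 := by
    rw [norm_neg, norm_smul, RCLike.norm_ofReal, abs_of_pos hs]; exact hs2
  obtain ⟨U, hU⟩ := isUnit_one_sub_of_norm_lt_one h1
  refine ⟨(↑U⁻¹ : E →L[𝕜] E) v', ?_⟩
  have h2 : (U : E →L[𝕜] E) ((↑U⁻¹ : E →L[𝕜] E) v') = v' := by
    rw [← ContinuousLinearMap.mul_apply, Units.mul_inv, ContinuousLinearMap.one_apply]
  rw [hU] at h2
  rw [_root_.sub_apply, ContinuousLinearMap.one_apply, _root_.neg_apply, sub_neg_eq_add,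
    _root_.smul_apply] at h2
  exact h2

lemma M_surj (h : Proj P) {s : ℝ} (hs : 0 < s) (hs2 : s * ‖BO h‖ < 1) (v' : StrongDual 𝕜 X) :
    ∃ v, v + (s : 𝕜) • BO h v = v' :=
  surj_abstract (BO h) hs hs2 v'

/-- the set of admissible defect constants -/
def SC (h : Proj P) : Set ℝ :=
  {C | 0 ≤ C ∧ ∀ (v : StrongDual 𝕜 X) (ζ : StrongDual 𝕜 (Bid 𝕜 X)), res ζ = 0 →
    ‖BO h v‖ + ‖ζ‖ - ‖RO h v + ζ‖ ≤ C * ‖v‖}

lemma SC_init (h : Proj P) : ‖BO h‖ + ‖RO h‖ ∈ SC h := by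
  refine ⟨by positivity, fun v ζ _ => ?_⟩
  have h1 := (BO h).le_opNorm v
  have h2 := (RO h).le_opNorm v
  have h3 : ‖ζ‖ ≤ ‖RO h v + ζ‖ + ‖RO h v‖ := by
    have := norm_sub_le (RO h v + ζ) (RO h v)
    rwa [add_sub_cancel_left] at this
  nlinarith

lemma SC_step (h : Proj P) {C : ℝ} (hC : C ∈ SC h) {s : ℝ} (hs : 0 < s) (hs2 : s * ‖BO h‖ < 1) :
    C / (1 + s) + s^2 * (‖AO h‖^2 * ‖BO h‖) ∈ SC h := by
  refine ⟨by have := hC.1; positivity, fun v' ζ hζ => ?_⟩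
  obtain ⟨v, rfl⟩ := M_surj h hs hs2 v'
  have h1 := h.L (RO h v + ζ) hs.le
  have h2 : res (RO h v + ζ) = BO h v := by rw [map_add, hζ, add_zero]; rfl
  rw [h2] at h1
  have h3 : RO h v + ζ + (s : 𝕜) • RO h (BO h v) = RO h (v + (s : 𝕜) • BO h v) + ζ := by
    rw [map_add, map_smul]; abel
  rw [h3] at h1
  have h4 : BO h (v + (s : 𝕜) • BO h v) = BO h v + (s : 𝕜) • BO h (BO h v) := by
    rw [map_add, map_smul]
  have h5 := M_upper h (BO h v) hs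
  have h6 := hC.2 v ζ hζ
  have h7 := M_lower h v hs
  have h8 := (BO h).le_opNorm v
  rw [h4]
  set N' := ‖v + (s : 𝕜) • BO h v‖ with hN'
  set a := ‖AO h‖^2 with ha
  have ha0 : 0 ≤ a := by positivity
  have hb0 : 0 ≤ ‖BO h‖ := norm_nonneg (BO h)
  have hv0 : 0 ≤ ‖v‖ := norm_nonneg _
  have h9 : ‖BO h v + (s : 𝕜) • BO h (BO h v)‖ + ‖ζ‖ - ‖RO h (v + (s : 𝕜) • BO h v) + ζ‖ ≤
      C * ‖v‖ + (1 + s) * (s^2 * (a * (‖BO h‖ * ‖v‖))) := by
    have h10 : (1 + s) * (s^2 * (a * ‖BO h v‖)) ≤ (1 + s) * (s^2 * (a * (‖BO h‖ * ‖v‖))) := by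
      gcongr
    linarith
  refine h9.trans ?_
  have h11 : ‖v‖ ≤ N' / (1 + s) := by rw [le_div_iff₀ (by linarith)]; linarith
  calc C * ‖v‖ + (1 + s) * (s^2 * (a * (‖BO h‖ * ‖v‖)))
      ≤ C * (N' / (1 + s)) + (1 + s) * (s^2 * (a * (‖BO h‖ * (N' / (1 + s))))) := by
        have := hC.1
        gcongr
    _ = (C / (1 + s) + s^2 * (a * ‖BO h‖)) * N' := by
        field_simp

lemma SC_zero (h : Proj P) (v : StrongDual 𝕜 X) (ζ : StrongDual 𝕜 (Bid 𝕜 X)) (hζ : res ζ = 0) :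
    ‖BO h v‖ + ‖ζ‖ ≤ ‖RO h v + ζ‖ := by
  have hne : (SC h).Nonempty := ⟨_, SC_init h⟩
  have hbdd : BddBelow (SC h) := ⟨0, fun C hC => hC.1⟩
  set c := sInf (SC h) with hc
  have hc0 : 0 ≤ c := le_csInf hne (fun C hC => hC.1)
  have hcS : c ∈ SC h := by
    refine ⟨hc0, fun v ζ hζ => ?_⟩
    by_cases hv : ‖v‖ = 0
    · obtain ⟨C, hC⟩ := hne
      have := hC.2 v ζ hζ
      rw [hv, mul_zero] at this ⊢
      exact this
    · have hv0 : 0 < ‖v‖ := lt_of_le_of_ne (norm_nonneg _) (Ne.symm hv)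
      rw [← div_le_iff₀ hv0]
      apply le_csInf hne
      intro C hC
      rw [div_le_iff₀ hv0]
      exact hC.2 v ζ hζ
  have hcle : c ≤ 0 := by
    by_contra hpos
    push Not at hpos
    set K := ‖AO h‖^2 * ‖BO h‖ with hK
    have hK0 : 0 ≤ K := by positivity
    set s : ℝ := min (1 / (1 + ‖BO h‖)) (min 1 (c / (4 * (K + 1)))) with hs
    have hb0 : 0 ≤ ‖BO h‖ := norm_nonneg (BO h)
    have hs0 : 0 < s := lt_min (by positivity) (lt_min one_pos (by positivity))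
    have hs1 : s ≤ 1 := (min_le_right _ _).trans (min_le_left _ _)
    have hs3 : s ≤ c / (4 * (K + 1)) := (min_le_right _ _).trans (min_le_right _ _)
    have hs2 : s * ‖BO h‖ < 1 := by
      have h1 : s ≤ 1 / (1 + ‖BO h‖) := min_le_left _ _
      rw [le_div_iff₀ (by positivity)] at h1
      nlinarith
    have h1 := csInf_le hbdd (SC_step h hcS hs0 hs2)
    rw [← hc, ← hK] at h1
    rw [le_div_iff₀ (by positivity)] at hs3
    have h2 : c * (1 + s) ≤ c + s^2 * K * (1 + s) := by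
      have h3 := mul_le_mul_of_nonneg_right h1 (by linarith : 0 ≤ 1 + s)
      have e : (c / (1 + s) + s^2 * K) * (1 + s) = c + s^2 * K * (1 + s) := by field_simp
      rwa [e] at h3
    have h4 : c * s ≤ s * (s * K * 2) := by
      have : s^2 * K * (1 + s) ≤ s^2 * K * 2 := by
        apply mul_le_mul_of_nonneg_left (by linarith); positivity
      nlinarith
    have h5 : c ≤ s * K * 2 := by
      have : s * c ≤ s * (s * K * 2) := by linarith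
      exact le_of_mul_le_mul_left this hs0
    nlinarith
  have := hcS.2 v ζ hζ
  have hc00 : c = 0 := le_antisymm hcle hc0
  rw [hc00, zero_mul] at this
  linarith

lemma RO_eq (h : Proj P) (v : StrongDual 𝕜 X) : RO h v = j2 (BO h v) := by
  have h1 := SC_zero h v (j2 (BO h v) - RO h v) (by rw [map_sub, res_j2, BO_apply, sub_self])
  rw [add_sub_cancel, j2_norm] at h1
  have h2 : ‖j2 (BO h v) - RO h v‖ ≤ 0 := by linarith
  have h3 := norm_le_zero_iff.1 h2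
  rw [sub_eq_zero] at h3
  exact h3.symm

lemma BO_dense (h : Proj P) (u : StrongDual 𝕜 X) :
    u ∈ closure ((LinearMap.range (BO h : StrongDual 𝕜 X →ₗ[𝕜] StrongDual 𝕜 X) :
      Submodule 𝕜 (StrongDual 𝕜 X)) : Set (StrongDual 𝕜 X)) := by
  by_contra hcon
  obtain ⟨f, hf, hfu⟩ := ext_annih _ hcon
  have hf0 : ∀ v, f (BO h v) = 0 := fun v => hf _ ⟨v, rfl⟩
  set y : Bid 𝕜 X := Bid.mk f with hy
  have hyev : ∀ v, y.ev v = f v := fun v => rfl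
  have hyn : 0 < ‖y‖ := by
    rw [norm_pos_iff]
    intro h0
    apply hfu
    rw [← hyev, h0]; rfl
  set c : 𝕜 := ((‖y‖⁻¹ : ℝ) : 𝕜) with hc
  have hcn : ‖c‖ = ‖y‖⁻¹ := by rw [hc, RCLike.norm_ofReal, abs_of_pos (inv_pos.2 hyn)]
  have hcy : ‖c • y‖ = 1 := by rw [norm_smul, hcn, inv_mul_cancel₀ hyn.ne']
  obtain ⟨ε, hε0, hεη, hε⟩ := near (𝕜 := 𝕜) (X := X) (η := 1/8) (by norm_num)
  obtain ⟨v, hv, hvy⟩ := approx_norm (c • y).ev hε0
  rw [Bid.norm_ev, hcy] at hvy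
  have hw : ‖(j2 v : StrongDual 𝕜 (Bid 𝕜 X))‖ ≤ 1 := by rw [j2_norm]; exact hv
  have h1 := h.main (hε (j2 v) (c • y) hw hcy.le (by rw [j2_apply]; exact hvy))
  rw [res_j2, RO_eq, j2_apply, j2_apply, Bid.ev_smul, Bid.ev_smul, hyev (BO h v), hf0, mul_zero,
    sub_zero, hcy, mul_one, ← Bid.ev_smul] at h1
  have h2 := (RCLike.re_le_norm _).trans h1
  have h3 : 1 - ε ≤ ‖v‖ := by
    have h4 := (RCLike.re_le_norm _).trans ((c • y).ev_le v)
    rw [hcy, one_mul] at h4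
    linarith
  linarith

/-- `X` is M-embedded. -/
theorem Proj.embedded (h : Proj P) (u : StrongDual 𝕜 X) (ζ : StrongDual 𝕜 (Bid 𝕜 X))
    (hζ : res ζ = 0) : ‖u‖ + ‖ζ‖ ≤ ‖j2 u + ζ‖ := by
  have hcl : IsClosed {u : StrongDual 𝕜 X | ‖u‖ + ‖ζ‖ ≤ ‖j2 u + ζ‖} := by
    apply isClosed_le
    · fun_prop
    · fun_prop
  have hsub : ((LinearMap.range (BO h : StrongDual 𝕜 X →ₗ[𝕜] StrongDual 𝕜 X) :
      Submodule 𝕜 (StrongDual 𝕜 X)) : Set (StrongDual 𝕜 X)) ⊆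
      {u : StrongDual 𝕜 X | ‖u‖ + ‖ζ‖ ≤ ‖j2 u + ζ‖} := by
    rintro _ ⟨v, rfl⟩
    have := SC_zero h v ζ hζ
    rw [RO_eq] at this
    exact this
  exact hcl.closure_subset_iff.2 hsub (BO_dense h u)

end Pool.Agent.MP_4f1eb4_an
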