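import Pool.Agent.MP_4f1eb4_an.Basic

open NormedSpace Filter Topology Set

namespace Pool.Agent.MP_4f1eb4_an

variable {𝕜 X : Type*} [RCLike 𝕜] [NormedAddCommGroup X] [NormedSpace 𝕜 X]

lemma approx_norm {E : Type*} [NormedAddCommGroup E] [NormedSpace 𝕜 E] (w : StrongDual 𝕜 E)
    {ε : ℝ} (hε : 0 < ε) : ∃ y : E, ‖y‖ ≤ 1 ∧ ‖w‖ - ε ≤ RCLike.re (w y) := by
  obtain ⟨x, hx, hr⟩ := w.exists_lt_apply_of_lt_opNorm (by linarith : ‖w‖ - ε < ‖w‖)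
  obtain ⟨c, hc, hcx⟩ := RCLike.exists_norm_eq_mul_self (w x)
  refine ⟨c • x, ?_, ?_⟩
  · rw [norm_smul, hc, one_mul]; exact hx.le
  · rw [map_smul, smul_eq_mul, ← hcx, RCLike.ofReal_re]; exact hr.le

lemma ext_annih {E : Type*} [NormedAddCommGroup E] [NormedSpace 𝕜 E] (S : Submodule 𝕜 E) {x : E}
    (hx : x ∉ closure (S : Set E)) : ∃ f : StrongDual 𝕜 E, (∀ s ∈ S, f s = 0) ∧ f x ≠ 0 := by
  let _ : NormedSpace ℝ E := NormedSpace.restrictScalars ℝ 𝕜 E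
  have hconv : Convex ℝ (closure (S : Set E)) := by
    apply Convex.closure
    intro p hp q hq s t _ _ _
    have e1 : s • p = (s : 𝕜) • p := rfl
    have e2 : t • q = (t : 𝕜) • q := rfl
    rw [e1, e2]
    exact S.add_mem (S.smul_mem _ hp) (S.smul_mem _ hq)
  obtain ⟨f, r, hf1, hf2⟩ := RCLike.geometric_hahn_banach_closed_point (𝕜 := 𝕜) hconv
    isClosed_closure hx
  have hS : ∀ s ∈ S, f s = 0 := by
    intro s hs
    by_contra hne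
    have h1 := hf1 (((r : 𝕜) * (f s)⁻¹) • s) (subset_closure (S.smul_mem _ hs))
    rw [map_smul, smul_eq_mul, mul_assoc, inv_mul_cancel₀ hne, mul_one, RCLike.ofReal_re] at h1
    exact lt_irrefl _ h1
  refine ⟨f, hS, fun h0 => ?_⟩
  have h1 := hf1 0 (subset_closure S.zero_mem)
  rw [map_zero] at h1
  rw [h0] at hf2
  linarith

variable [hfact : Fact (0 < numIndex 𝕜 X)]

lemma n_pos : 0 < numIndex 𝕜 X := hfact.out

lemma op_norm_le (T : Lv 𝕜 X) : ‖T.op‖ ≤ (numIndex 𝕜 X)⁻¹ * ‖T‖ := by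
  have h := numIndex_mul_norm_le (𝕜 := 𝕜) (X := X) T.op
  rw [Lv_norm_def]
  have hn : 0 < numIndex 𝕜 X := n_pos
  rw [inv_mul_eq_div, le_div_iff₀ hn]
  linarith

lemma of_norm_le (T : X →L[𝕜] X) : ‖Lv.of T‖ ≤ ‖T‖ := numRadius_le_norm T

/-- The functional `T ↦ w (T^{**} y)`. -/
noncomputable def Phi (w : StrongDual 𝕜 (Bid 𝕜 X)) (y : Bid 𝕜 X) : StrongDual 𝕜 (Lv 𝕜 X) :=
  LinearMap.mkContinuous
    { toFun := fun T : Lv 𝕜 X => w (bi T.op y)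
      map_add' := fun S T => by rw [Lv.op_add, bi_add_left, map_add]
      map_smul' := fun c T => by rw [Lv.op_smul, bi_smul_left, map_smul]; rfl }
    (‖w‖ * ‖y‖ * (numIndex 𝕜 X)⁻¹) (fun T => by
      show ‖w (bi T.op y)‖ ≤ _
      calc ‖w (bi T.op y)‖ ≤ ‖w‖ * (‖T.op‖ * ‖y‖) :=
            (w.le_opNorm _).trans (mul_le_mul_of_nonneg_left (bi_norm_le _ _) (norm_nonneg _))
        _ ≤ ‖w‖ * (((numIndex 𝕜 X)⁻¹ * ‖T‖) * ‖y‖) := by
            gcongr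
            exact op_norm_le T
        _ = ‖w‖ * ‖y‖ * (numIndex 𝕜 X)⁻¹ * ‖T‖ := by ring)

@[simp] lemma Phi_apply (w : StrongDual 𝕜 (Bid 𝕜 X)) (y : Bid 𝕜 X) (T : Lv 𝕜 X) :
    Phi w y T = w (bi T.op y) := rfl

lemma Phi_norm_le (w : StrongDual 𝕜 (Bid 𝕜 X)) (y : Bid 𝕜 X) :
    ‖Phi w y‖ ≤ ‖w‖ * ‖y‖ * (numIndex 𝕜 X)⁻¹ :=
  LinearMap.mkContinuous_norm_le _ (by
    have : 0 < numIndex 𝕜 X := n_pos
    positivity) _

lemma Phi_add_left (w w' : StrongDual 𝕜 (Bid 𝕜 X)) (y : Bid 𝕜 X) :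
    Phi (w + w') y = Phi w y + Phi w' y := by
  ext T; simp

lemma Phi_smul_left (c : 𝕜) (w : StrongDual 𝕜 (Bid 𝕜 X)) (y : Bid 𝕜 X) :
    Phi (c • w) y = c • Phi w y := by
  ext T; simp

lemma Phi_add_right (w : StrongDual 𝕜 (Bid 𝕜 X)) (y z : Bid 𝕜 X) :
    Phi w (y + z) = Phi w y + Phi w z := by
  ext T; simp [bi_add_right]

lemma Phi_smul_right (c : 𝕜) (w : StrongDual 𝕜 (Bid 𝕜 X)) (y : Bid 𝕜 X) :
    Phi w (c • y) = c • Phi w y := by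
  ext T; simp [bi_smul_right]

lemma near_aux {c t η ε : ℝ} {w : StrongDual 𝕜 (Bid 𝕜 X)} {y : Bid 𝕜 X} (hw : ‖w‖ ≤ 1)
    (hy : ‖y‖ ≤ 1) (hwy : 1 - ε ≤ RCLike.re (w y)) {T : X →L[𝕜] X} (hv : numRadius T ≤ 1)
    (hc : ‖T‖ ≤ c) (ht : 0 < t) (ht2 : t ≤ 1/2) (htη : (2 + 2 * c^2) * t ≤ η/2)
    (hε : ε ≤ t * (η/2)) : ‖w (bi T y)‖ ≤ 1 + η := by
  obtain ⟨θ, hθ, hθx⟩ := RCLike.exists_norm_eq_mul_self (w (bi T y))
  have hv' : numRadius (θ • T) ≤ 1 := by rw [numRadius_smul, hθ, one_mul]; exact hv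
  have hc' : ‖θ • T‖ ≤ c := by rw [norm_smul, hθ, one_mul]; exact hc
  have h1 := lumer hv' hc' ht ht2
  have h2 : w (bi (ContinuousLinearMap.id 𝕜 X + (t : 𝕜) • (θ • T)) y) =
      w y + (t : 𝕜) * (‖w (bi T y)‖ : 𝕜) := by
    rw [bi_add_left, bi_id, bi_smul_left, bi_smul_left, map_add, map_smul, map_smul, smul_eq_mul,
      smul_eq_mul, hθx]
  have h3 : ‖w (bi (ContinuousLinearMap.id 𝕜 X + (t : 𝕜) • (θ • T)) y)‖ ≤
      1 + t + (2 + 2 * c^2) * t^2 := by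
    calc ‖w (bi (ContinuousLinearMap.id 𝕜 X + (t : 𝕜) • (θ • T)) y)‖
        ≤ ‖w‖ * (‖ContinuousLinearMap.id 𝕜 X + (t : 𝕜) • (θ • T)‖ * ‖y‖) :=
          (w.le_opNorm _).trans (mul_le_mul_of_nonneg_left (bi_norm_le _ _) (norm_nonneg _))
      _ ≤ 1 * (‖ContinuousLinearMap.id 𝕜 X + (t : 𝕜) • (θ • T)‖ * 1) := by gcongr
      _ ≤ 1 + t + (2 + 2 * c^2) * t^2 := by rw [one_mul, mul_one]; exact h1
  have h4 : RCLike.re (w y) + t * ‖w (bi T y)‖ ≤ 1 + t + (2 + 2 * c^2) * t^2 := by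
    have h5 := (RCLike.re_le_norm _).trans h3
    rw [h2, map_add, ← RCLike.ofReal_mul, RCLike.ofReal_re] at h5
    exact h5
  have h6 : t * ‖w (bi T y)‖ ≤ t * (1 + η) := by
    have h7 : (2 + 2 * c^2) * t^2 ≤ t * (η/2) := by
      have := mul_le_mul_of_nonneg_right htη ht.le
      nlinarith
    nlinarith
  exact le_of_mul_le_mul_left h6 ht

/-- near norming pairs give functionals of norm nearly at most one -/
lemma near {η : ℝ} (hη : 0 < η) : ∃ ε > 0, ε ≤ η ∧ ∀ (w : StrongDual 𝕜 (Bid 𝕜 X)) (y : Bid 𝕜 X),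
    ‖w‖ ≤ 1 → ‖y‖ ≤ 1 → 1 - ε ≤ RCLike.re (w y) → ‖Phi w y‖ ≤ 1 + η := by
  set c : ℝ := (numIndex 𝕜 X)⁻¹ with hc
  have hK : 0 < 2 + 2 * c^2 := by positivity
  set t : ℝ := min (1/2) (η / (2 * (2 + 2 * c^2))) with ht
  have ht0 : 0 < t := lt_min (by norm_num) (by positivity)
  have ht2 : t ≤ 1/2 := min_le_left _ _
  have htη : (2 + 2 * c^2) * t ≤ η/2 := by
    have h1 : t ≤ η / (2 * (2 + 2 * c^2)) := min_le_right _ _
    calc (2 + 2 * c^2) * t ≤ (2 + 2 * c^2) * (η / (2 * (2 + 2 * c^2))) :=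
          mul_le_mul_of_nonneg_left h1 hK.le
      _ = η/2 := by field_simp
  refine ⟨t * (η/2), by positivity, by nlinarith, ?_⟩
  intro w y hw hy hwy
  apply ContinuousLinearMap.opNorm_le_bound _ (by linarith)
  intro T
  rw [Phi_apply]
  by_cases hT : ‖T‖ = 0
  · have h1 := op_norm_le T
    rw [hT, mul_zero] at h1
    have h2 : T.op = 0 := norm_le_zero_iff.1 h1
    have h3 : bi T.op y = 0 := by
      have := bi_norm_le T.op y
      rw [h2, norm_zero, zero_mul] at this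
      rw [h2]
      exact norm_le_zero_iff.1 this
    rw [h3, map_zero, norm_zero, hT, mul_zero]
  · have hT0 : 0 < ‖T‖ := lt_of_le_of_ne (norm_nonneg _) (Ne.symm hT)
    set S : X →L[𝕜] X := ((‖T‖⁻¹ : ℝ) : 𝕜) • T.op with hS
    have hv : numRadius S ≤ 1 := by
      rw [hS, numRadius_smul, RCLike.norm_ofReal, abs_of_pos (inv_pos.2 hT0), ← Lv_norm_def,
        inv_mul_cancel₀ hT]
    have hcS : ‖S‖ ≤ c := by
      rw [hS, norm_smul, RCLike.norm_ofReal, abs_of_pos (inv_pos.2 hT0)]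
      have := mul_le_mul_of_nonneg_left (op_norm_le T) (inv_pos.2 hT0).le
      calc ‖T‖⁻¹ * ‖T.op‖ ≤ ‖T‖⁻¹ * ((numIndex 𝕜 X)⁻¹ * ‖T‖) := this
        _ = c := by rw [hc]; field_simp
    have h1 := near_aux hw hy hwy hv hcS ht0 ht2 htη le_rfl
    rw [hS, bi_smul_left, map_smul, norm_smul, RCLike.norm_ofReal, abs_of_pos (inv_pos.2 hT0)] at h1
    rw [inv_mul_le_iff₀ hT0] at h1
    linarith

end Pool.Agent.MP_4f1eb4_an
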